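import Pool.Agent.H35.TY.Stm

/-!
# Positivity and the end of the proof
-/

set_option autoImplicit false

namespace Pool.Agent.H86.TY

open Pool.Agent.H35 (CX.Ctx)
open Pool.Agent.H35.FC (Tiles Facts)
open Pool.Agent.H35.TY

theorem sFin : SFin := by
  intro α _ C A B N H y g P V s1 hg hXP hU hfin hV hV0 h6
  classical
  obtain ⟨v, hv, hv'⟩ := exists_lead hV0
  have hv1 : V v = 1 := (hV v).resolve_left hv
  have hi0 : ∀ (S : Set (List α)) w, 0 ≤ ind S w := by
    intro S w
    rcases ind_cases S w with e | e <;> rw [e] <;> norm_num
  have hP0 : ∀ p, 0 ≤ P p := by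
    intro p
    by_cases hu : sh (p ++ [y]) P = 0
    · have h := h6 p v
      rw [hu, zero_mul, zero_mul, zero_apply, sub_zero, hv1, mul_one] at h
      rw [← h]
      exact hi0 _ _
    · obtain ⟨u, hu1, hu2⟩ := exists_lead hu
      have hu3 : sh (p ++ [y]) P u = 1 := by
        rcases hU p u with e | e
        · exfalso
          apply hu1
          rw [sh_apply, List.append_assoc]
          exact e
        · rw [sh_apply, List.append_assoc]
          exact e
      have h := h6 p (u ++ v)
      have h1 : (sh (p ++ [y]) P * om * V : NC α) (u ++ v) = 1 := by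
        rw [mul_lead _ V u v ?_ hv', hv1, mul_one]
        · rcases List.eq_nil_or_concat u with rfl | ⟨u', x, rfl⟩
          · rw [mul_om_nil, hu3]
          · rw [List.concat_eq_append] at hu2 hu3 ⊢
            rw [mul_om_snoc, hu3, hu2 u' (by simp), sub_zero]
        · intro z hz
          rcases List.eq_nil_or_concat z with rfl | ⟨z', x, rfl⟩
          · rw [mul_om_nil, hu2 _ hz]
          · rw [List.concat_eq_append] at hz ⊢
            rw [mul_om_snoc, hu2 _ hz, hu2 z' (by
              simp only [List.length_append, List.length_cons, List.length_nil] at hz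
              omega), sub_zero]
      rw [h1] at h
      have h2 := hi0 C (p ++ y :: (u ++ v ++ y :: s1))
      rw [h] at h2
      rcases hV (u ++ v) with e | e
      · rw [e] at h2
        omega
      · rw [e] at h2
        omega
  -- the sum over the cuts
  have hsum : ∀ w : List α, ∑ i ∈ Finset.range (w.length + 1),
      ind (Xs A g) (w.take i) * P (w.drop i) = 1 := by
    intro w
    rw [← mul_eq_sum, hXP]
    rfl
  have hterm : ∀ (w : List α) (i : ℕ), 0 ≤ ind (Xs A g) (w.take i) * P (w.drop i) :=
    fun w i => mul_nonneg (hi0 _ _) (hP0 _)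
  have hX0 : ind (Xs A g) [] = 1 := ind_pos (by
    show [] ∈ A (g ++ [])
    rwa [List.append_nil])
  have hP1 : ∀ w, P w = 0 ∨ P w = 1 := by
    intro w
    have h1 : ind (Xs A g) (w.take 0) * P (w.drop 0) ≤ 1 := by
      rw [← hsum w]
      exact Finset.single_le_sum (f := fun i => ind (Xs A g) (w.take i) * P (w.drop i))
        (fun i _ => hterm w i) (Finset.mem_range.2 (by omega))
    rw [List.take_zero, List.drop_zero, hX0, one_mul] at h1
    have h2 := hP0 w
    omega
  refine ⟨{w | P w ≠ 0}, ?_, ?_⟩
  · -- finiteness
    have hsub : {w | P w ≠ 0} ⊆ {w | y ∈ w ∧ P w ≠ 0} ∪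
        ((⋃ w ∈ {w | y ∈ w ∧ P w ≠ 0}, {p | p ∈ w.inits}) ∪
          (fun w : List α => w.take (w.length - (v ++ y :: s1).length - 1)) '' C) := by
      intro p hp
      by_cases hy : y ∈ p
      · exact Or.inl ⟨hy, hp⟩
      refine Or.inr ?_
      by_cases hu : sh (p ++ [y]) P = 0
      · refine Or.inr ?_
        have h := h6 p v
        rw [hu, zero_mul, zero_mul, zero_apply, sub_zero, hv1, mul_one] at h
        have h1 : p ++ y :: (v ++ y :: s1) ∈ C := by
          by_contra hc
          rw [ind_neg hc] at h
          exact hp h.symm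
        refine ⟨_, h1, ?_⟩
        show List.take _ _ = p
        have h2 : (p ++ y :: (v ++ y :: s1)).length - (v ++ y :: s1).length - 1 = p.length := by
          simp only [List.length_append, List.length_cons]
          omega
        rw [h2, List.take_left]
      · refine Or.inl ?_
        obtain ⟨u, hu1, -⟩ := exists_lead hu
        rw [Set.mem_iUnion₂]
        refine ⟨p ++ y :: u, ⟨by simp, ?_⟩, ?_⟩
        · rw [sh_apply, List.append_assoc] at hu1
          exact hu1
        · exact (List.mem_inits _ _).2 ⟨_, rfl⟩
    refine Set.Finite.subset (hfin.union (Set.Finite.union ?_ (H.fin.image _))) hsub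
    exact hfin.biUnion fun w _ => (List.finite_toSet w.inits)
  · -- the tiling
    intro w
    refine ⟨fun h => absurd h (Set.notMem_empty w), fun _ => ?_⟩
    have hex : ∃ i ∈ Finset.range (w.length + 1),
        ind (Xs A g) (w.take i) * P (w.drop i) ≠ 0 := by
      by_contra hcon
      push Not at hcon
      have h1 := hsum w
      rw [Finset.sum_eq_zero hcon] at h1
      exact zero_ne_one h1
    obtain ⟨i, hi, hi1⟩ := hex
    have hXi : w.take i ∈ Xs A g := by
      by_contra hc
      rw [ind_neg hc, zero_mul] at hi1
      exact hi1 rfl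
    have hPi : P (w.drop i) ≠ 0 := fun h => hi1 (by rw [h, mul_zero])
    obtain ⟨s, hs, c, hc, hsc⟩ := (H.rcA g (w.take i)).1 hXi
    refine ⟨(s, c, w.drop i), ⟨hs, hc, hPi, ?_⟩, ?_⟩
    · show s ++ (c ++ w.drop i) = w
      rw [← List.append_assoc, hsc, List.take_append_drop]
    · rintro ⟨s', c', p'⟩ ⟨hs', hc', hp', he⟩
      simp only at hs' hc' hp' he
      -- the second cut
      obtain ⟨j, hj⟩ : ∃ j, j = (s' ++ c').length := ⟨_, rfl⟩
      have hw : w = (s' ++ c') ++ p' := by rw [List.append_assoc]; exact he.symm
      have htj : w.take j = s' ++ c' := by rw [hw, hj, List.take_left]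
      have hdj : w.drop j = p' := by rw [hw, hj, List.drop_left]
      have hjr : j ∈ Finset.range (w.length + 1) := by
        have h9 := congrArg List.length hw
        rw [List.length_append] at h9
        rw [Finset.mem_range, hj]
        omega
      have hXj : ind (Xs A g) (w.take j) = 1 := by
        rw [htj]
        exact ind_pos ((H.rcA g (s' ++ c')).2 ⟨s', hs', c', hc', rfl⟩)
      have hPj : P (w.drop j) = 1 := by
        rw [hdj]
        exact (hP1 p').resolve_left hp'
      have hXi' : ind (Xs A g) (w.take i) = 1 := ind_pos hXi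
      have hPi' : P (w.drop i) = 1 := (hP1 _).resolve_left hPi
      have hij : i = j := by
        by_contra hne
        have h1 := hsum w
        have h2 : ind (Xs A g) (w.take i) * P (w.drop i) +
            ind (Xs A g) (w.take j) * P (w.drop j) ≤ 1 := by
          rw [← h1]
          have h3 : ({i, j} : Finset ℕ) ⊆ Finset.range (w.length + 1) := by
            intro k hk
            rw [Finset.mem_insert, Finset.mem_singleton] at hk
            rcases hk with rfl | rfl
            · exact hi
            · exact hjr
          rw [← Finset.sum_pair (f := fun i => ind (Xs A g) (w.take i) * P (w.drop i)) hne]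
          exact Finset.sum_le_sum_of_subset_of_nonneg h3 fun k _ _ => hterm w k
        rw [hXj, hPj, hXi', hPi'] at h2
        norm_num at h2
      obtain ⟨b, hb⟩ := H.neB []
      have h4 := Pool.Agent.H35.CX.uniq H (f := []) hs' hc' hb hs hc hb (by
        rw [← List.append_assoc, ← List.append_assoc, hsc, hij, htj])
      rw [h4.1, h4.2.1, hij, hdj]

end Pool.Agent.H86.TY
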